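import Pool.Agent.Run7.h457.MT.Rel2

/-!
# The Mumford-Tate conjecture for all motives generated by hyperkähler and abelian varieties

Let `k` be a finitely generated subfield of the field of complex numbers, let `X_1, …, X_r` be
projective hyperkähler varieties over `k`, of any deformation types, and let `P` be any motive over `k`.

**Theorem.** If the Mumford-Tate conjecture holds for the sum of `P` and of the `H²(X_t)`, then it holds
for every motive `M` in the tannakian category generated by `P` and by the motives of the `X_t`: for
every `ℓ` the identity component of the `ℓ`-adic monodromy group of `M` is the Mumford-Tate group of
`M`.

The assumption is a theorem of Commelin (of André for `P = 0`, `r = 1`) if `b_2(X_t) > 3` and `P` is an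
abelian motive which satisfies the Mumford-Tate conjecture: the `H²(X_t)` are abelian motives which
satisfy the conjecture (André), and the abelian motives which satisfy it form a tannakian category. So
the theorem gives the Mumford-Tate conjecture for the tannakian category generated by the motives of all
hyperkähler varieties (with `b_2 > 3`) and of all abelian varieties which satisfy the conjecture; for
example for all products of these varieties.

Before, this was known for the four known deformation types (Soldatenkov; Floccari, Fu, Zhang), whose
motives are abelian; for other deformation types it was known in degree two.

The category is given by its realizations: `GeneratedWith` is the smallest class of pairs (rational Hodge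
structure, `ℓ`-adic representation) which contains `P`, the `H^i(X_t)` and `ℚ(1)` and is closed under
sums, tensor products, duals and direct summands (the category of motives is semisimple, so subquotients
are direct summands; the realizations of a direct summand of a motive are a direct summand in this
sense).

Idea of the proof. The Lie algebra `so(H²)` acts on `H^i` (Verbitsky, Looijenga-Lunts). Let `R_i` be the
map from `gso(H²)` to `gl(H^i)` given by this action and by the scalars `i / 2`. The Galois group
normalizes `so(H²)`, so it acts on the commutant `A_i` of `so(H²)` in `End(H^i)`. At a good place of
degree one `A_i` has only the slope zero, because the Hodge filtration of `H^i` is given by an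
element of `so(H²)` (weak admissibility); so the eigenvalues of Frobenius on `A_i` are roots of unity of
bounded order, and by Chebotarev's theorem an open subgroup `U` of the Galois group acts unipotently on
`A_i`. At the places above `ℓ` Sen's operator is given by an element of `so(H²)` as well, so open
subgroups of the inertia groups act trivially on `A_i`; as there are no unramified additive characters
(class field theory) and by Kolchin's theorem `U` acts trivially on `A_i`. Let `L_i(σ)` be the logarithm of
`σ` on `H^i`, for `σ` near `1`. Then `L_i(σ) - R_i(L_2(σ))` is in the centre of `A_i`, and by the
determinants of the Frobenius elements its traces on the images of the idempotents of `A_i` are zero. As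
`H^i` is a semisimple representation of `so(H²)` (Weyl), `L_i(σ) = R_i(L_2(σ))`. So for each object `M` of
the category the Lie algebra of the image of the Galois group is the image of the one on the sum of `P`
and of the `H²(X_t)` under a rational linear map `E`, as for the Lie algebra of the Mumford-Tate group,
because the Hodge structures of the `H^i` are given by elements of `so(H²)`, too (Verbitsky).
For the passage from Lie algebras to algebraic groups see the files `Run7/h606/MT` and `Run7/h835/MT`.
-/

set_option autoImplicit false

namespace Pool.Agent.Results.MP_de8692_ag.HyperkaehlerAndAbelian

open Run7.h457.MT Pool.Agent.W401.Cheb

/-- **The Mumford-Tate conjecture for all motives generated by hyperkähler varieties and a motive `P`.**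
Let `F` be a finite nonempty family of projective hyperkähler varieties over the finitely generated
field `k`, let `P` be such that the Mumford-Tate conjecture holds for the sum of `P` and of the `H²` of
these varieties, and let `M` be an object of the tannakian category generated by `P` and by their
motives. Then the identity component of the Zariski closure of the image of the Galois group of `k` in
`GL(M)` is the Mumford-Tate group of `M`. -/
theorem result {k : Type} [Field k] {ℓ : ℕ} [Fact ℓ.Prime] {T : Type} [Fintype T] [DecidableEq T]
    [Nonempty T] (F : HKFam k ℓ T) (P : Obj ℓ (GK k)) (h : (P.sum F.two).MumfordTateLie)
    (M : Obj ℓ (GK k)) (hM : F.GeneratedWith P M) : MumfordTateConjecture M.h M.ρ :=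
  (with_thm F h hM).1

end Pool.Agent.Results.MP_de8692_ag.HyperkaehlerAndAbelian
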